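import Pool.Agent.helper69.DH.SpecR

set_option autoImplicit false

open Filter Topology MeasureTheory
open scoped commutatorElement

namespace Pool.Agent.helper90.DH

open Pool.Agent.helper64.D2

theorem rPEL_fib (s : Finset (ℤ × ℕ)) (g : ℤ × ℕ → ℤ) (B : Finset ℤ) :
    (s.filter (fun p => g p ∈ B)).card = ∑ m ∈ B, (s.filter (fun p => g p = m)).card := by
  have h0 : ∀ p ∈ s.filter (fun p => g p ∈ B), g p ∈ B := fun p hp => (Finset.mem_filter.1 hp).2
  rw [Finset.card_eq_sum_card_fiberwise (s := s.filter (fun p => g p ∈ B)) (f := g) (t := B) (fun p hp => h0 p hp)]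
  refine Finset.sum_congr rfl fun m hm => ?_
  rw [Finset.filter_filter]
  congr 1
  refine Finset.filter_congr fun p _ => ?_
  constructor
  · exact fun h => h.2
  · intro h
    exact ⟨by rw [h]; exact hm, h⟩

theorem rPEL_sum (q : ℕ) (A B : Finset ℤ) (b : ℕ → ℤ → ℤ) :
    ((A ×ˢ Finset.range q).filter (fun p => b p.2 p.1 ∈ B)).card =
      ∑ n ∈ A, ((Finset.range q).filter (fun k => b k n ∈ B)).card := by
  rw [Finset.card_filter, Finset.sum_product]
  refine Finset.sum_congr rfl fun n _ => ?_
  rw [Finset.card_filter]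

theorem rPEL_div (x y C : ℝ) (hx : 0 ≤ x) (hC : 0 ≤ C) (hy : 0 ≤ y) (h : y ^ 2 ≤ C * x * y) : y ≤ C * x := by
  rcases eq_or_lt_of_le hy with h0 | h0
  · rw [← h0]; positivity
  · have h1 : y * y ≤ (C * x) * y := by nlinarith [h]
    exact le_of_mul_le_mul_right h1 h0

theorem rPEL : rPEL_stmt := by
  intro q A b Bad hq
  induction A using Finset.strongInduction with
  | H A ih =>
    intro hBad hmix
    rcases A.eq_empty_or_nonempty with hA | hA
    · subst hA
      refine ⟨fun _ => ∅, fun n hn => absurd hn (Finset.notMem_empty n), fun m => ?_⟩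
      simp
    -- the bad targets
    set c : ℤ → ℕ := fun m => ((A ×ˢ Finset.range q).filter (fun p => b p.2 p.1 = m)).card with hc
    set B : Finset ℤ := ((A ×ˢ Finset.range q).image (fun p => b p.2 p.1)).filter (fun m => q < 12000 * c m) with hB
    set A' : Finset ℤ := A.filter (fun n => q < 4 * ((Finset.range q).filter (fun k => b k n ∈ B)).card) with hA'
    have hq0 : (0 : ℝ) < q := by exact_mod_cast hq
    have hAx : (0 : ℝ) < A.card := by exact_mod_cast hA.card_pos
    have hNB : q * B.card ≤ 12000 * ((A ×ˢ Finset.range q).filter (fun p => b p.2 p.1 ∈ B)).card := by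
      rw [rPEL_fib (A ×ˢ Finset.range q) (fun p => b p.2 p.1) B, Finset.mul_sum]
      calc q * B.card = ∑ m ∈ B, q := by rw [Finset.sum_const, smul_eq_mul, mul_comm]
        _ ≤ ∑ m ∈ B, 12000 * c m := Finset.sum_le_sum fun m hm => (Finset.mem_filter.1 hm).2.le
    have hNA : q * A'.card ≤ 4 * ((A' ×ˢ Finset.range q).filter (fun p => b p.2 p.1 ∈ B)).card := by
      rw [rPEL_sum q A' B b, Finset.mul_sum]
      calc q * A'.card = ∑ m ∈ A', q := by rw [Finset.sum_const, smul_eq_mul, mul_comm]
        _ ≤ _ := Finset.sum_le_sum fun m hm => (Finset.mem_filter.1 hm).2.le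
    have hA'A : A' ⊆ A := Finset.filter_subset _ _
    have h1 := hmix A subset_rfl B
    have h2 := hmix A' hA'A B
    have hNB' : (q : ℝ) * B.card ≤ 12000 * (((A ×ˢ Finset.range q).filter (fun p => b p.2 p.1 ∈ B)).card : ℝ) := by
      exact_mod_cast hNB
    have hNA' : (q : ℝ) * A'.card ≤ 4 * (((A' ×ˢ Finset.range q).filter (fun p => b p.2 p.1 ∈ B)).card : ℝ) := by
      exact_mod_cast hNA
    set N := (((A ×ˢ Finset.range q).filter (fun p => b p.2 p.1 ∈ B)).card : ℝ) with hN
    set N' := (((A' ×ˢ Finset.range q).filter (fun p => b p.2 p.1 ∈ B)).card : ℝ) with hN'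
    have hBc : (0 : ℝ) ≤ B.card := Nat.cast_nonneg _
    have hAc : (0 : ℝ) ≤ A'.card := Nat.cast_nonneg _
    have hB1 : (B.card : ℝ) ≤ (4 * 12000 ^ 2 / 2 ^ 104) * A.card := by
      refine rPEL_div A.card B.card _ hAx.le (by positivity) hBc ?_
      have e1 : ((q : ℝ) * B.card) ^ 2 ≤ (12000 * N) ^ 2 := pow_le_pow_left₀ (by positivity) hNB' 2
      have e2 : (q : ℝ) ^ 2 * (B.card : ℝ) ^ 2 ≤ (q : ℝ) ^ 2 * ((4 * 12000 ^ 2 / 2 ^ 104) * A.card * B.card) := by
        calc (q : ℝ) ^ 2 * (B.card : ℝ) ^ 2 = ((q : ℝ) * B.card) ^ 2 := by ring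
          _ ≤ (12000 * N) ^ 2 := e1
          _ = 12000 ^ 2 * N ^ 2 := by ring
          _ ≤ 12000 ^ 2 * (4 * (q : ℝ) ^ 2 * A.card * B.card / 2 ^ 104) := by
            exact mul_le_mul_of_nonneg_left h1 (by positivity)
          _ = _ := by ring
      exact le_of_mul_le_mul_left e2 (by positivity)
    have hA1 : (A'.card : ℝ) ≤ (64 / 2 ^ 104) * B.card := by
      refine rPEL_div B.card A'.card _ hBc (by positivity) hAc ?_
      have e1 : ((q : ℝ) * A'.card) ^ 2 ≤ (4 * N') ^ 2 := pow_le_pow_left₀ (by positivity) hNA' 2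
      have e2 : (q : ℝ) ^ 2 * (A'.card : ℝ) ^ 2 ≤ (q : ℝ) ^ 2 * ((64 / 2 ^ 104) * B.card * A'.card) := by
        calc (q : ℝ) ^ 2 * (A'.card : ℝ) ^ 2 = ((q : ℝ) * A'.card) ^ 2 := by ring
          _ ≤ (4 * N') ^ 2 := e1
          _ = 16 * N' ^ 2 := by ring
          _ ≤ 16 * (4 * (q : ℝ) ^ 2 * A'.card * B.card / 2 ^ 104) := by
            exact mul_le_mul_of_nonneg_left h2 (by positivity)
          _ = _ := by ring
      exact le_of_mul_le_mul_left e2 (by positivity)
    have hlt : A'.card < A.card := by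
      have : (A'.card : ℝ) < A.card := by
        have e3 : (64 / 2 ^ 104 : ℝ) * B.card ≤ (64 / 2 ^ 104 : ℝ) * ((4 * 12000 ^ 2 / 2 ^ 104) * A.card) :=
          mul_le_mul_of_nonneg_left hB1 (by positivity)
        have e4 : (64 / 2 ^ 104 : ℝ) * ((4 * 12000 ^ 2 / 2 ^ 104) * A.card) < A.card := by
          rw [← mul_assoc]
          have : (64 / 2 ^ 104 : ℝ) * (4 * 12000 ^ 2 / 2 ^ 104) < 1 := by norm_num
          nlinarith [this, hAx]
        linarith
      exact_mod_cast this
    have hss : A' ⊂ A := by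
      refine Finset.ssubset_iff_subset_ne.2 ⟨hA'A, fun h => ?_⟩
      rw [h] at hlt
      exact lt_irrefl _ hlt
    obtain ⟨G', hG1, hG2⟩ := ih A' hss (fun n hn => hBad n (hA'A hn)) (fun A'' h'' Q => hmix A'' (h''.trans hA'A) Q)
    refine ⟨fun n => if n ∈ A' then G' n else (Finset.range q).filter (fun k => k ∉ Bad n ∧ b k n ∉ B), ?_, ?_⟩
    · intro n hn
      by_cases hn' : n ∈ A'
      · simp only [hn', if_true]
        exact hG1 n hn'
      · simp only [hn', if_false]
        refine ⟨Finset.filter_subset _ _, ?_, ?_⟩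
        · rw [Finset.disjoint_left]
          intro k hk
          exact (Finset.mem_filter.1 hk).2.1
        · have e1 : 4 * ((Finset.range q).filter (fun k => b k n ∈ B)).card ≤ q := by
            by_contra h
            exact hn' (Finset.mem_filter.2 ⟨hn, not_le.1 h⟩)
          have e2 := hBad n hn
          have e3 : Finset.range q ⊆ ((Finset.range q).filter (fun k => k ∉ Bad n ∧ b k n ∉ B) ∪ Bad n) ∪
              (Finset.range q).filter (fun k => b k n ∈ B) := by
            intro k hk
            by_cases h1 : k ∈ Bad n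
            · exact Finset.mem_union_left _ (Finset.mem_union_right _ h1)
            · by_cases h2 : b k n ∈ B
              · exact Finset.mem_union_right _ (Finset.mem_filter.2 ⟨hk, h2⟩)
              · exact Finset.mem_union_left _ (Finset.mem_union_left _ (Finset.mem_filter.2 ⟨hk, h1, h2⟩))
          have e4 := Finset.card_le_card e3
          have e5 := Finset.card_union_le (((Finset.range q).filter (fun k => k ∉ Bad n ∧ b k n ∉ B)) ∪ Bad n)
            ((Finset.range q).filter (fun k => b k n ∈ B))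
          have e6 := Finset.card_union_le ((Finset.range q).filter (fun k => k ∉ Bad n ∧ b k n ∉ B)) (Bad n)
          rw [Finset.card_range] at e4
          omega
    · intro m
      by_cases hm : m ∈ B
      · refine le_trans ?_ (hG2 m)
        refine Nat.mul_le_mul_left _ (Finset.card_le_card ?_)
        intro p hp
        obtain ⟨hp1, hp2, hp3⟩ := Finset.mem_filter.1 hp
        obtain ⟨hp4, hp5⟩ := Finset.mem_product.1 hp1
        by_cases hn' : p.1 ∈ A'
        · simp only [hn', if_true] at hp2
          exact Finset.mem_filter.2 ⟨Finset.mem_product.2 ⟨hn', hp5⟩, hp2, hp3⟩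
        · simp only [hn', if_false] at hp2
          exact absurd (by rw [hp3]; exact hm) (Finset.mem_filter.1 hp2).2.2
      · have e1 : ((A ×ˢ Finset.range q).filter (fun p => p.2 ∈ (if p.1 ∈ A' then G' p.1 else
            (Finset.range q).filter (fun k => k ∉ Bad p.1 ∧ b k p.1 ∉ B)) ∧ b p.2 p.1 = m)).card ≤ c m := by
          refine Finset.card_le_card ?_
          intro p hp
          obtain ⟨hp1, hp2, hp3⟩ := Finset.mem_filter.1 hp
          exact Finset.mem_filter.2 ⟨hp1, hp3⟩
        by_cases h0 : c m = 0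
        · have e2 := Nat.le_zero.1 (e1.trans h0.le)
          have e3 : 12000 * ((A ×ˢ Finset.range q).filter (fun p => p.2 ∈ (if p.1 ∈ A' then G' p.1 else
            (Finset.range q).filter (fun k => k ∉ Bad p.1 ∧ b k p.1 ∉ B)) ∧ b p.2 p.1 = m)).card = 0 := by
            rw [e2]
          exact e3.le.trans (Nat.zero_le _)
        · have hmi : m ∈ (A ×ˢ Finset.range q).image (fun p => b p.2 p.1) := by
            obtain ⟨p, hp⟩ := Finset.card_pos.1 (Nat.pos_of_ne_zero h0)
            obtain ⟨hp1, hp2⟩ := Finset.mem_filter.1 hp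
            exact Finset.mem_image.2 ⟨p, hp1, hp2⟩
          have e2 : 12000 * c m ≤ q := by
            by_contra h
            exact hm (Finset.mem_filter.2 ⟨hmi, not_le.1 h⟩)
          exact (Nat.mul_le_mul_left _ e1).trans e2

end Pool.Agent.helper90.DH
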