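import Pool.Agent.helper69.DH.SpecR2

set_option autoImplicit false

open Filter Topology MeasureTheory
open scoped commutatorElement

namespace Pool.Agent.helper90.DH

open Pool.Agent.helper64.D2

/-- `a LL w ≤ w` for large `w`. -/
theorem rTDN_LL (a : ℕ) : ∃ w1 : ℕ, ∀ w : ℕ, w1 ≤ w → a * LL w ≤ w := by
  have h0 : ∀ b : ℕ, b * (2 * b + 1) ≤ 2 ^ (2 * b) := by
    intro b
    induction b with
    | zero => simp
    | succ b ih =>
      rcases Nat.eq_zero_or_pos b with h | h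
      · subst h; norm_num
      · have e : 2 ^ (2 * (b + 1)) = 4 * 2 ^ (2 * b) := by
          rw [show 2 * (b + 1) = 2 * b + 2 by ring, pow_add]; ring
        rw [e]
        nlinarith
  have h1 : ∀ n : ℕ, 2 * a ≤ n → a * (n + 1) ≤ 2 ^ n := by
    intro n hn
    induction n, hn using Nat.le_induction with
    | base => exact h0 a
    | succ n hn ih =>
      have e : a ≤ 2 ^ n := by
        calc a ≤ a * (n + 1) := Nat.le_mul_of_pos_right _ (by omega)
          _ ≤ 2 ^ n := ih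
      calc a * (n + 1 + 1) = a * (n + 1) + a := by ring
        _ ≤ 2 ^ n + 2 ^ n := add_le_add ih e
        _ = 2 ^ (n + 1) := by rw [pow_succ]; ring
  refine ⟨2 ^ (2 * a), fun w hw => ?_⟩
  have hw0 : w ≠ 0 := by
    have : 0 < 2 ^ (2 * a) := by positivity
    omega
  have e1 : 2 * a ≤ Nat.log 2 w := Nat.le_log_of_pow_le (by norm_num) hw
  unfold LL
  exact (h1 _ e1).trans (Nat.pow_log_le_self 2 hw0)

theorem rTDN_mem (s : ℕ) (m : ℤ) (x : ℝ) : x ∈ cell s m ↔ ci s x = m := by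
  have hp : (0 : ℝ) < 2 ^ s := by positivity
  unfold ci cell
  rw [Int.floor_eq_iff, Set.mem_Ico, div_le_iff₀ hp, lt_div_iff₀ hp, mul_comm x]

theorem rTDN_PA (s : ℕ) (f : ℝ → ℝ) (c : ℝ) : PA s (fun x => c * Es s f x) := by
  intro k
  refine ⟨c * (2 ^ s * (∫ t in cell s k, f t) - 12 * 2 ^ (3 * s) * (((k : ℝ) + 1 / 2) / 2 ^ s) *
      ∫ t in cell s k, (t - ((k : ℝ) + 1 / 2) / 2 ^ s) * f t),
    c * (12 * 2 ^ (3 * s) * ∫ t in cell s k, (t - ((k : ℝ) + 1 / 2) / 2 ^ s) * f t), fun x hx => ?_⟩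
  have hk : ci s x = k := (rTDN_mem s k x).1 hx
  have hm : mid s x = ((k : ℝ) + 1 / 2) / 2 ^ s := by
    unfold mid
    rw [hk]
  show c * Es s f x = _
  unfold Es
  rw [hk, hm]
  ring

theorem rTDN_count (s : ℕ) (A : Finset ℤ) (U : Set ℝ) (hU : volume U ≠ ⊤) (h : ∀ m ∈ A, cell s m ⊆ U) :
    (A.card : ℝ) / 2 ^ s ≤ volume.real U := by
  have hp : (0 : ℝ) < 2 ^ s := by positivity
  have h1 : volume.real (⋃ m ∈ A, cell s m) = ∑ m ∈ A, volume.real (cell s m) := by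
    refine measureReal_biUnion_finset ?_ (fun m _ => measurableSet_Ico) ?_
    · intro m _ m' _ hne
      refine Set.disjoint_left.2 fun x hx hx' => hne ?_
      rw [← (rTDN_mem s m x).1 hx, ← (rTDN_mem s m' x).1 hx']
    · intro m _
      unfold cell
      rw [Real.volume_Ico]
      exact ENNReal.ofReal_ne_top
  have h2 : ∀ m : ℤ, volume.real (cell s m) = 1 / 2 ^ s := by
    intro m
    unfold cell
    rw [measureReal_def, Real.volume_Ico, ENNReal.toReal_ofReal]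
    · ring
    · rw [← sub_div]
      have : (m : ℝ) + 1 - m = 1 := by ring
      rw [this]
      positivity
  have h3 : volume.real (⋃ m ∈ A, cell s m) ≤ volume.real U := measureReal_mono (Set.iUnion₂_subset h) hU
  rw [h1] at h3
  simp only [h2, Finset.sum_const, nsmul_eq_mul] at h3
  calc (A.card : ℝ) / 2 ^ s = A.card * (1 / 2 ^ s) := by ring
    _ ≤ _ := h3

theorem rTDN_Bd (q s0 S1 : ℕ) (c : ℕ → DD) (th th' : ℝ) (y : ℝ → ℝ) (s : ℕ) (h : th' ≤ th) :
    BdS q c s0 S1 th y s ⊆ BdS q c s0 S1 th' y s := by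
  rintro x (h1 | h1 | ⟨h1, h2⟩)
  · exact Or.inl (h.trans_lt h1)
  · exact Or.inr (Or.inl (h.trans_lt h1))
  · exact Or.inr (Or.inr ⟨h1, h.trans_lt h2⟩)

/-- If the sums differ by `q/2^27` then the averages differ by `1/2^27`. -/
theorem rTDN_av (q : ℕ) (hq : 1 ≤ q) (A B : ℝ) (h : |A - B| ≤ q / 2 ^ 27) (hB : 1 / 2 ^ 25 < |B / q|) :
    1 / 2 ^ 26 < |A / q| := by
  have hq0 : (0 : ℝ) < q := by exact_mod_cast hq
  have e1 : |A / q - B / q| ≤ 1 / 2 ^ 27 := by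
    rw [← sub_div, abs_div, abs_of_pos hq0, div_le_iff₀ hq0]
    calc |A - B| ≤ q / 2 ^ 27 := h
      _ = 1 / 2 ^ 27 * q := by ring
  have e2 : |B / q| ≤ |A / q| + |A / q - B / q| := by
    have := abs_sub_abs_le_abs_sub (B / q) (A / q)
    rw [abs_sub_comm (B / q)] at this
    linarith
  have e3 : (1 : ℝ) / 2 ^ 26 + 1 / 2 ^ 27 ≤ 1 / 2 ^ 25 := by norm_num
  linarith

theorem rTDN (hNMX : NMX_stmt) (hBAS : rBAS_stmt) (hPLF : rPLF_stmt) (hSLF : rSLF_stmt) : rTDN_stmt := by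
  classical
  intro K0 m0 hK0
  obtain ⟨a, ha⟩ := hNMX K0 (1 / 2 ^ 27) 0 hK0 (by positivity) le_rfl
  obtain ⟨w1, hw1⟩ := rTDN_LL a
  obtain ⟨q0, hq0⟩ := hSLF m0
  refine ⟨a, max a w1, fun w0 hw0 => ?_⟩
  have haw : a ≤ w0 := (le_max_left _ _).trans hw0
  have hLL : a * LL w0 ≤ w0 := hw1 w0 ((le_max_right _ _).trans hw0)
  refine ⟨hLL, q0 + 10 * w0 + 20, fun q s0 hq hs0 δ N S cm σ y hy hδ hHY => ?_⟩
  have hs10 : 10 * w0 ≤ s0 := by omega
  have hs20 : w0 + 20 ≤ s0 := by omega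
  have hq1 : 1 ≤ q := by omega
  have hqq : q0 ≤ q := by omega
  have hss : q0 ≤ s0 := by omega
  set S1 := s0 + w0 - a * LL w0 with hS1
  have hS1s0 : s0 ≤ S1 := by omega
  have hsmall : (2 : ℝ) ^ (w0 + 3) / 2 ^ s0 ≤ 1 / 100 := by
    have e : (2 : ℝ) ^ s0 = 2 ^ (w0 + 3) * 2 ^ (s0 - (w0 + 3)) := by
      rw [← pow_add]; congr 1; omega
    rw [e, div_mul_eq_div_div, div_self (by positivity)]
    have e2 : (2 : ℝ) ^ 7 ≤ 2 ^ (s0 - (w0 + 3)) := pow_le_pow_right₀ (by norm_num) (by omega)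
    rw [div_le_div_iff₀ (by positivity) (by norm_num)]
    norm_num at e2 ⊢
    linarith
  obtain ⟨hP1, hP2⟩ := hPLF N s0 y hy (by omega)
  -- the application of the maximal function at the level `s`
  have key : ∀ s, s0 ≤ s → s ≤ S →
      (∀ t, s0 ≤ t → t ≤ s → BdS q (cm s) s0 S1 (1 / 2 ^ 27) (fun x => 1 / 2 * Es (s + 1) y x) t = BdS q (cm s) s0 S1 (1 / 2 ^ 26) y t) ∧
      (∀ t, s0 ≤ t → t < s + 1 → t < S1 → BdS q (cm s) s0 S1 (1 / 2 ^ 27) (fun x => 1 / 2 * Es (s + 1) y x) t = ∅) ∧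
      ∀ κ : ℤ, volume.real ((⋃ t ∈ Set.Ico s0 (s + 1), Nb 0 t {k | (cell t k ∩ BdS q (cm s) s0 S1 (1 / 2 ^ 27) (fun x => 1 / 2 * Es (s + 1) y x) t).Nonempty}) ∩
        cell (s0 - w0 - 4) κ) ≤ 2 ^ (3 * a * LL w0) / 2 ^ (2 * w0) / 2 ^ (s0 - w0 - 4) := by
    intro s hs hsS
    obtain ⟨h1, -, -, h4⟩ := hHY.1 s hs hsS
    have hy' : ∀ x, x ∉ Set.Icc (1 / 4 : ℝ) (3 / 4) → 1 / 2 * Es (s + 1) y x = 0 := by
      intro x hx
      have e : x ∉ Set.Ico (9 / 32 : ℝ) (23 / 32) := by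
        intro h
        exact hx ⟨by linarith [h.1], by linarith [h.2]⟩
      rw [((hP1 (s + 1) (by omega)).2.2.1 x e).2.2, mul_zero]
    have hy2 : ∀ x, |1 / 2 * Es (s + 1) y x| ≤ 2 := by
      intro x
      rw [abs_mul, abs_of_pos (by norm_num : (0 : ℝ) < 1 / 2)]
      linarith [((hP1 (s + 1) (by omega)).1 x).1]
    obtain ⟨h5, h6⟩ := ha w0 haw hLL s0 (s + 1) q (cm s) (fun x => 1 / 2 * Es (s + 1) y x) hs10 (by omega) hq1
      (fun i hi => ⟨fun x => ((h1 i hi).1 x).trans hδ, (h1 i hi).2⟩) (fun s' h h' => h4 s' h (by omega)) (rTDN_PA _ _ _) hy' hy2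
    refine ⟨?_, h5, h6⟩
    intro t ht hts
    have e := hP2 s S1 q (cm s) (1 / 2 ^ 26) hs t ht hts
    have e2 : (1 : ℝ) / 2 ^ 26 / 2 = 1 / 2 ^ 27 := by norm_num
    rw [e2] at e
    exact e
  refine ⟨?_, ?_⟩
  · intro s hs hsS κ
    have hs' : s0 ≤ s := hS1s0.trans hs
    obtain ⟨k1, -, k3⟩ := key s hs' hsS
    have k3 := k3 κ
    set ell := s0 - w0 - 4 with hell
    set U := (⋃ t ∈ Set.Ico s0 (s + 1), Nb 0 t {k | (cell t k ∩ BdS q (cm s) s0 S1 (1 / 2 ^ 27) (fun x => 1 / 2 * Es (s + 1) y x) t).Nonempty}) ∩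
        cell ell κ with hU
    have hUf : volume U ≠ ⊤ := by
      refine ne_top_of_le_ne_top ?_ (measure_mono (Set.inter_subset_right))
      unfold cell
      rw [Real.volume_Ico]
      exact ENNReal.ofReal_ne_top
    obtain ⟨-, hB2, -⟩ := hBAS
    have hsub : ∀ m ∈ (rRZ (rPP q s0 w0 a cm y).T s).filter (fun m => m / 2 ^ (s - ell) = κ), cell s m ⊆ U := by
      intro m hm
      obtain ⟨hm1, hm2⟩ := Finset.mem_filter.1 hm
      obtain ⟨hm3, t, hts, hm4⟩ := Finset.mem_filter.1 hm1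
      have hm4' : m / 2 ^ (s - t) ∈ rTB q (cm t) s0 S1 y t := hm4
      obtain ⟨-, hSt, z, hz1, hz2⟩ := Finset.mem_filter.1 hm4'
      have hs0t : s0 ≤ t := hS1s0.trans hSt
      -- transfer of the bad point from the maps of the level `t` to the maps of the level `s`
      have hz3 : z ∈ BdS q (cm s) s0 S1 (1 / 2 ^ 26) y t := by
        obtain ⟨f1, f2, f3⟩ := hq0 q s0 hqq hss K0 δ w0 a N S cm σ y hy hHY hsmall t hs0t (hts.trans hsS) z
          (fun i => ev (cm s i) z) (by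
            intro i hi
            refine ((hHY.2 t s hs0t hts hsS).2 i hi z).trans ?_
            exact one_div_le_one_div_of_le (by positivity) (pow_le_pow_right₀ (by norm_num) (by omega)))
        rcases hz2 with h | h | ⟨h, h'⟩
        · exact Or.inl (rTDN_av q hq1 _ _ f1 h)
        · exact Or.inr (Or.inl (rTDN_av q hq1 _ _ f2 h))
        · exact Or.inr (Or.inr ⟨h, rTDN_av q hq1 _ _ f3 h'⟩)
      rw [← k1 t hs0t hts] at hz3
      intro x hx
      have hxm := (rTDN_mem s m x).1 hx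
      refine ⟨?_, ?_⟩
      · refine Set.mem_iUnion₂.2 ⟨t, ⟨hs0t, by omega⟩, m / 2 ^ (s - t), ⟨z, hz1, hz3⟩, ?_, ?_⟩
        · have e : x ∈ cell t (m / 2 ^ (s - t)) := by
            rw [rTDN_mem, hB2 s t x hts, hxm]
          rw [sub_zero]
          exact e.1
        · have e : x ∈ cell t (m / 2 ^ (s - t)) := by
            rw [rTDN_mem, hB2 s t x hts, hxm]
          rw [add_zero]
          exact e.2.le
      · rw [rTDN_mem, hB2 s ell x (by omega), hxm]
        exact hm2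
    have h7 := rTDN_count s _ U hUf hsub
    have h8 := h7.trans k3
    have hp : (0 : ℝ) < 2 ^ s := by positivity
    rw [div_le_iff₀ hp] at h8
    refine h8.trans (le_of_eq ?_)
    have e : (2 : ℝ) ^ s = 2 ^ ell * 2 ^ (s - ell) := by
      rw [← pow_add]; congr 1; omega
    rw [e]
    field_simp
  · intro s hs hsS hsS1
    obtain ⟨k1, k2, -⟩ := key s hs hsS
    have e := k2 s hs (by omega) hsS1
    rw [k1 s hs le_rfl] at e
    have e2 := rTDN_Bd q s0 S1 (cm s) (1 / 2 ^ 25) (1 / 2 ^ 26) y s (by norm_num)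
    rw [e] at e2
    exact Set.subset_empty_iff.1 e2

end Pool.Agent.helper90.DH
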